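import Mathlib
import Pool.Agent.TP975.LR.Lq3

/-!
The weak Mertens hypothesis along almost all polynomials, in the form of an asymptotic formula.
-/

set_option autoImplicit false

namespace Pool.Agent.Results.MP_323ce2_nt.MertensAlongPolynomials

open Finset

/-- the Liouville function on the integers, `lam (-m) = lam m`, `lam 0 = 0` -/
noncomputable def lam (m : ℤ) : ℝ := if m = 0 then 0 else (-1) ^ ArithmeticFunction.cardFactors m.natAbs

/-- the value at `t` of the polynomial with the coefficients `a 0, ..., a d` -/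
def value {d : ℕ} (a : Fin (d + 1) → ℤ) (t : ℤ) : ℤ := ∑ c, a c * t ^ (c : ℕ)

/-- the polynomials of degree at most `d` with coefficients in `[-H, H]` -/
noncomputable def box (d H : ℕ) : Finset (Fin (d + 1) → ℤ) := Fintype.piFinset fun _ => Icc (-(H : ℤ)) H

/-- the summatory function of `lam (f n)` over `1 ≤ n ≤ u` -/
noncomputable def M {d : ℕ} (f : Fin (d + 1) → ℤ) (u : ℝ) : ℝ := ∑ n ∈ Icc 1 ⌊u⌋₊, lam (value f (n : ℤ))

/-- the integral of `(M f u / u) ^ 2` over `1 ≤ u ≤ x` -/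
noncomputable def I {d : ℕ} (f : Fin (d + 1) → ℤ) (x : ℝ) : ℝ := ∫ u in (1 : ℝ)..x, (M f u / u) ^ 2

open Classical in
/-- For every `δ > 0` there is `C` such that for all degrees `d ≥ 2`, all `A`, all large `H` and all `x₀ ≥ 2`, all but at most
`C #box / log x₀` of the polynomials `f` of degree at most `d` satisfy `|I f x - log x| ≤ δ log x` for ALL real `x` with
`x₀ ≤ x ≤ log ^ A H`. -/
theorem result (δ : ℝ) (hδ : 0 < δ) : ∃ C : ℝ, 0 < C ∧ ∀ d A : ℕ, 2 ≤ d → ∃ H₀ : ℕ, ∀ H : ℕ, H₀ ≤ H → ∀ x₀ : ℝ, 2 ≤ x₀ →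
    (((box d H).filter (fun f => ∃ x : ℝ, x₀ ≤ x ∧ x ≤ Real.log H ^ A ∧
      δ * Real.log x < |I f x - Real.log x|)).card : ℝ) ≤ C * (box d H).card / Real.log x₀ := by
  obtain ⟨C, hC, h0⟩ := Pool.Agent.TP975.LR.mertens_real δ hδ
  refine ⟨C, hC, fun d A hd => ?_⟩
  obtain ⟨H0, h1⟩ := h0 Pool.Agent.TP975.LR.lamI Pool.Agent.TP975.LR.winB_lamI
    (fun v hv => by
      unfold Pool.Agent.TP975.LR.lamI
      rw [if_neg hv]
      exact neg_one_pow_eq_or ℝ _) (by
      unfold Pool.Agent.TP975.LR.lamI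
      rw [if_pos rfl]) d A hd
  refine ⟨H0, fun H hH x₀ hx₀ => ?_⟩
  obtain ⟨Bad, _, hB, hall⟩ := h1 H hH x₀ hx₀
  refine le_trans ?_ hB
  have hsub : (box d H).filter (fun f => ∃ x : ℝ, x₀ ≤ x ∧ x ≤ Real.log H ^ A ∧
      δ * Real.log x < |I f x - Real.log x|) ⊆ Bad := by
    intro f hf
    rw [mem_filter] at hf
    obtain ⟨hf1, x, hx, hxL, hlt⟩ := hf
    by_contra hbad
    apply absurd hlt
    rw [not_lt]
    exact hall f hf1 hbad x hx hxL
  exact_mod_cast card_le_card hsub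

end Pool.Agent.Results.MP_323ce2_nt.MertensAlongPolynomials
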